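import Mathlib
import Pool.Agent.Lib.MP_057a7b_nt.Main

namespace Pool.Agent.Results.MP_057a7b_nt.NoTriangle

/-- For `1 ≤ k < n` the area `A(n,k) = F_(n-k) / 4 * sqrt (4 F_n ^ 2 - F_(n-k) ^ 2)` of the
triangle with sides `F_(n-k), F_n, F_n` is not an integer. -/
theorem result (n k : ℕ) (hk : 1 ≤ k) (hkn : k < n) :
    ¬ ∃ A : ℤ, (Nat.fib (n - k) : ℝ) / 4 *
      Real.sqrt (4 * (Nat.fib n : ℝ) ^ 2 - (Nat.fib (n - k) : ℝ) ^ 2) = A := by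
  rintro ⟨A, hA⟩
  obtain ⟨m, rfl⟩ : ∃ m, n = m + k := ⟨n - k, by omega⟩
  rw [Nat.add_sub_cancel] at hA
  have hm : 1 ≤ m := by omega
  have hFm : (0 : ℝ) < Nat.fib m := by exact_mod_cast Nat.fib_pos.mpr hm
  have hle : (Nat.fib m : ℝ) ≤ Nat.fib (m + k) := by exact_mod_cast Nat.fib_mono (by omega)
  have hD : 0 ≤ 4 * (Nat.fib (m + k) : ℝ) ^ 2 - (Nat.fib m : ℝ) ^ 2 := by nlinarith
  have hs : Real.sqrt (4 * (Nat.fib (m + k) : ℝ) ^ 2 - (Nat.fib m : ℝ) ^ 2) =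
      ((4 * A / Nat.fib m : ℚ) : ℝ) := by
    push_cast
    rw [← hA]
    field_simp
  refine Pool.Agent.Lib.MP_057a7b_nt.no_rat k m hk hm (4 * A / Nat.fib m) ?_ ?_
  · have : (0 : ℝ) ≤ ((4 * A / Nat.fib m : ℚ) : ℝ) := hs ▸ Real.sqrt_nonneg _
    exact_mod_cast this
  · have := Real.sq_sqrt hD
    rw [hs] at this
    exact_mod_cast this

end Pool.Agent.Results.MP_057a7b_nt.NoTriangle
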